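import Pool.Agent.Q274.TWD.Dense

/-!
# Counting pairs
-/

set_option autoImplicit false

namespace Pool.Agent.Q274.TWD

open Finset

variable {X Y : Type}

open Classical in
theorem num_eq [Fintype X] [Fintype Y] (F : X → Y → Prop) :
    num F = (univ.filter (fun p : X × Y => F p.1 p.2)).card := by
  unfold num
  rw [card_filter, Fintype.sum_prod_type]
  refine Finset.sum_congr rfl fun x _ => ?_
  rw [card_filter]

theorem num_eq_card {Z : Type} [Fintype X] [Fintype Y] (F : X → Y → Prop) (A : Finset Z)
    (e : X × Y ≃ Z) (h : ∀ x y, F x y ↔ e (x, y) ∈ A) : num F = A.card := by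
  classical
  rw [num_eq]
  refine Finset.card_bij (fun p _ => e p) ?_ ?_ ?_
  · intro p hp
    exact (h p.1 p.2).1 (mem_filter.1 hp).2
  · intro p _ q _ hpq
    exact e.injective hpq
  · intro b hb
    refine ⟨e.symm b, mem_filter.2 ⟨mem_univ _, ?_⟩, e.apply_symm_apply b⟩
    rw [h]
    simpa using hb

end Pool.Agent.Q274.TWD
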