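import Pool.Agent.Y422.TW.Defs

/-!
# Dense relations of small twin-width contain large product sets
-/

set_option autoImplicit false

namespace Pool.Agent.Q274.TWD

open Finset Pool.Agent.Y422.TW

variable {V X Y : Type}

open Classical in
/-- the number of pairs in the relation -/
noncomputable def num [Fintype X] [Fintype Y] (F : X → Y → Prop) : ℕ :=
  ∑ x : X, (univ.filter (fun y : Y => F x y)).card

open Classical in
theorem num_swap [Fintype X] [Fintype Y] (F : X → Y → Prop) :
    num (fun y x => F x y) = num F := by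
  unfold num
  exact (sum_card_bipartiteAbove_eq_sum_card_bipartiteBelow (s := (univ : Finset X))
    (t := (univ : Finset Y)) F).symm

open Classical in
/-- a subrelation of large minimum degree -/
theorem clean [Fintype X] [Fintype Y] (F : X → Y → Prop) (ha : 0 < num F) :
    ∃ (S : Finset X) (T : Finset Y), S.Nonempty ∧ T.Nonempty ∧
      (∀ x ∈ S, num F ≤ 4 * Fintype.card X * (T.filter (fun y => F x y)).card) ∧
      (∀ y ∈ T, num F ≤ 4 * Fintype.card Y * (S.filter (fun x => F x y)).card) := by
  set a := num F with hadef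
  set M := Fintype.card X with hM
  set N := Fintype.card Y with hN
  have hM0 : 0 < M := by
    by_contra h0
    have h1 : IsEmpty X := Fintype.card_eq_zero_iff.1 (by omega)
    have h2 : a = 0 := by
      rw [hadef]
      unfold num
      rw [Finset.univ_eq_empty, Finset.sum_empty]
    omega
  have hN0 : 0 < N := by
    by_contra h0
    have h1 : IsEmpty Y := Fintype.card_eq_zero_iff.1 (by omega)
    have h2 : a = 0 := by
      rw [hadef, ← num_swap]
      unfold num
      rw [Finset.univ_eq_empty, Finset.sum_empty]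
    omega
  let φ : Finset X × Finset Y → ℤ := fun p =>
    4 * M * N * (∑ x ∈ p.1, ((p.2.filter (fun y => F x y)).card : ℤ)) - a * N * p.1.card
      - a * M * p.2.card
  obtain ⟨⟨S, T⟩, -, hmax⟩ := Finset.exists_max_image (univ : Finset (Finset X × Finset Y)) φ
    ⟨(univ, univ), mem_univ _⟩
  have hswap : ∀ (S : Finset X) (T : Finset Y), ∑ x ∈ S, ((T.filter (fun y => F x y)).card : ℤ) =
      ∑ y ∈ T, ((S.filter (fun x => F x y)).card : ℤ) := by
    intro S T
    exact_mod_cast sum_card_bipartiteAbove_eq_sum_card_bipartiteBelow (s := S) (t := T) F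
  have hpos : 0 < φ (S, T) := by
    refine lt_of_lt_of_le ?_ (hmax (univ, univ) (mem_univ _))
    have h1 : (∑ x : X, ((univ.filter (fun y : Y => F x y)).card : ℤ)) = a := by
      rw [hadef]
      unfold num
      push_cast
      rfl
    simp only [φ, h1, card_univ, ← hM, ← hN]
    have h2 : (0 : ℤ) < a * M * N := by positivity
    have h3 : (4 * M * N * a - a * N * M - a * M * N : ℤ) = 2 * (a * M * N) := by ring
    rw [h3]
    linarith
  have hS : S.Nonempty := by
    rw [Finset.nonempty_iff_ne_empty]
    rintro rfl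
    simp only [φ, Finset.sum_empty, Finset.card_empty] at hpos
    have : (0 : ℤ) ≤ a * M * T.card := by positivity
    push_cast at hpos
    linarith
  have hT : T.Nonempty := by
    rw [Finset.nonempty_iff_ne_empty]
    rintro rfl
    simp only [φ, Finset.filter_empty, Finset.sum_const_zero, Finset.card_empty] at hpos
    have : (0 : ℤ) ≤ a * N * S.card := by positivity
    push_cast at hpos
    simp only [Finset.sum_const_zero, mul_zero] at hpos
    linarith
  refine ⟨S, T, hS, hT, ?_, ?_⟩
  · intro x hx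
    have h1 := hmax (S.erase x, T) (mem_univ _)
    simp only [φ] at h1
    have h2 := Finset.add_sum_erase S (fun x => ((T.filter (fun y => F x y)).card : ℤ)) hx
    have h3 : ((S.erase x).card : ℤ) = S.card - 1 := by
      rw [card_erase_of_mem hx, Nat.cast_sub (card_pos.2 hS)]
      simp
    rw [← h2, h3] at h1
    have h4 : (a : ℤ) * N ≤ 4 * M * N * (T.filter (fun y => F x y)).card := by
      have e : (4 * M * N * (((T.filter (fun y => F x y)).card : ℤ) +
        ∑ x ∈ S.erase x, ((T.filter (fun y => F x y)).card : ℤ)) : ℤ) =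
        4 * M * N * ((T.filter (fun y => F x y)).card : ℤ) +
        4 * M * N * ∑ x ∈ S.erase x, ((T.filter (fun y => F x y)).card : ℤ) := by ring
      rw [e] at h1
      have e2 : (a : ℤ) * N * (S.card - 1) = a * N * S.card - a * N := by ring
      rw [e2] at h1
      linarith
    have h5 : a * N ≤ 4 * M * N * (T.filter (fun y => F x y)).card := by exact_mod_cast h4
    have e : 4 * M * N * (T.filter (fun y => F x y)).card =
      4 * M * (T.filter (fun y => F x y)).card * N := by ring
    rw [e] at h5
    exact Nat.le_of_mul_le_mul_right h5 hN0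
  · intro y hy
    have h1 := hmax (S, T.erase y) (mem_univ _)
    simp only [φ] at h1
    rw [hswap, hswap] at h1
    have h2 := Finset.add_sum_erase T (fun y => ((S.filter (fun x => F x y)).card : ℤ)) hy
    have h3 : ((T.erase y).card : ℤ) = T.card - 1 := by
      rw [card_erase_of_mem hy, Nat.cast_sub (card_pos.2 hT)]
      simp
    rw [← h2, h3] at h1
    have h4 : (a : ℤ) * M ≤ 4 * M * N * (S.filter (fun x => F x y)).card := by
      have e : (4 * M * N * (((S.filter (fun x => F x y)).card : ℤ) +
        ∑ y ∈ T.erase y, ((S.filter (fun x => F x y)).card : ℤ)) : ℤ) =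
        4 * M * N * ((S.filter (fun x => F x y)).card : ℤ) +
        4 * M * N * ∑ y ∈ T.erase y, ((S.filter (fun x => F x y)).card : ℤ) := by ring
      rw [e] at h1
      have e2 : (a : ℤ) * M * (T.card - 1) = a * M * T.card - a * M := by ring
      rw [e2] at h1
      linarith
    have h5 : a * M ≤ 4 * M * N * (S.filter (fun x => F x y)).card := by exact_mod_cast h4
    have e : 4 * M * N * (S.filter (fun x => F x y)).card =
      4 * N * (S.filter (fun x => F x y)).card * M := by ring
    rw [e] at h5
    exact Nat.le_of_mul_le_mul_right h5 hM0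

open Classical in
/-- a part with many rows, all parts having few columns -/
theorem key_part (G : SimpleGraph V) (w : ℕ) (f : X → V) (g : Y → V) (F : X → Y → Prop)
    (hF : ∀ x y, F x y ↔ G.Adj (f x) (g y)) (a M N : ℕ) (ha : 0 < a) (hM : 0 < M) (hN : 0 < N)
    (S : Finset X) (T : Finset Y) (hS : S.Nonempty) (hTN : T.card ≤ N)
    (hd : ∀ x ∈ S, a ≤ 4 * M * (T.filter (fun y => F x y)).card)
    (hSN : a ≤ 4 * N * S.card)
    (Q : Finset (Finset V)) (hcov : ∀ v, ∃ A ∈ Q, v ∈ A)
    (hgood : ∀ A ∈ Q, (Q.filter (fun B => B ≠ A ∧ ¬ Homog G A B)).card ≤ w)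
    (hsmall : ∀ A ∈ Q, 16 * (w + 1) * M * N * (T.filter (fun y => g y ∈ A)).card ≤
      2 * a * T.card)
    (P : Finset V) (hP : P ∈ Q)
    (hbig : a * S.card ≤ 16 * (w + 1) * M * N * (S.filter (fun x => f x ∈ P)).card) :
    ∃ (P : Finset X) (R : Finset Y), (∀ x ∈ P, ∀ y ∈ R, F x y) ∧
      a ≤ 8 * M * R.card ∧ a ^ 2 ≤ 64 * (w + 1) * M * N ^ 2 * P.card := by
  have hS0 := hS.card_pos
  have hPne : (S.filter (fun x => f x ∈ P)).Nonempty := by
    rw [← card_pos]
    by_contra h0
    have h1 : (S.filter (fun x => f x ∈ P)).card = 0 := by omega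
    rw [h1, mul_zero] at hbig
    have : 0 < a * S.card := Nat.mul_pos ha hS0
    omega
  obtain ⟨x, hx⟩ := hPne
  obtain ⟨hxS, hxP⟩ := mem_filter.1 hx
  set Red := Q.filter (fun B => B ≠ P ∧ ¬ Homog G P B) with hRed
  set R1 := T.filter (fun y => ∀ p ∈ P, G.Adj p (g y)) with hR1
  refine ⟨S.filter (fun x => f x ∈ P), R1, ?_, ?_, ?_⟩
  · intro x' hx' y hy
    rw [hF]
    exact (mem_filter.1 hy).2 _ (mem_filter.1 hx').2
  · have hsub : T.filter (fun y => F x y) ⊆
        R1 ∪ (insert P Red).biUnion (fun Z => T.filter (fun y => g y ∈ Z)) := by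
      intro y hy
      obtain ⟨hyT, hFy⟩ := mem_filter.1 hy
      obtain ⟨Z, hZ, hyZ⟩ := hcov (g y)
      by_cases hZP : Z = P
      · refine mem_union_right _ (mem_biUnion.2 ⟨P, mem_insert_self _ _, mem_filter.2 ⟨hyT, ?_⟩⟩)
        rw [← hZP]
        exact hyZ
      · by_cases hh : Homog G P Z
        · rcases hh with hh | hh
          · exact mem_union_left _ (mem_filter.2 ⟨hyT, fun p hp => hh p hp _ hyZ⟩)
          · exact absurd ((hF x y).1 hFy) (hh _ hxP _ hyZ)
        · exact mem_union_right _ (mem_biUnion.2 ⟨Z, mem_insert_of_mem (mem_filter.2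
            ⟨hZ, hZP, hh⟩), mem_filter.2 ⟨hyT, hyZ⟩⟩)
    have h1 : (T.filter (fun y => F x y)).card ≤ R1.card +
        ∑ Z ∈ insert P Red, (T.filter (fun y => g y ∈ Z)).card :=
      (card_le_card hsub).trans ((card_union_le _ _).trans
        (Nat.add_le_add_left card_biUnion_le _))
    have h2 : 16 * (w + 1) * M * N * ∑ Z ∈ insert P Red, (T.filter (fun y => g y ∈ Z)).card ≤
        (w + 1) * (2 * a * T.card) := by
      rw [mul_sum]
      calc ∑ Z ∈ insert P Red, 16 * (w + 1) * M * N * (T.filter (fun y => g y ∈ Z)).card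
          ≤ (insert P Red).card • (2 * a * T.card) := by
            refine sum_le_card_nsmul _ _ _ ?_
            intro Z hZ
            rcases mem_insert.1 hZ with rfl | hZ
            · exact hsmall _ hP
            · exact hsmall _ (mem_filter.1 hZ).1
        _ ≤ (w + 1) * (2 * a * T.card) := by
            rw [smul_eq_mul]
            exact Nat.mul_le_mul_right _ ((card_insert_le _ _).trans
              (Nat.add_le_add_right (hgood P hP) 1))
    have h3 := hd x hxS
    set δ := (T.filter (fun y => F x y)).card with hδ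
    set τ := ∑ Z ∈ insert P Red, (T.filter (fun y => g y ∈ Z)).card with hτ
    have h4 : 4 * (w + 1) * N * a ≤ 4 * (w + 1) * N * (4 * M * δ) := Nat.mul_le_mul_left _ h3
    have h5 : 16 * (w + 1) * M * N * δ ≤ 16 * (w + 1) * M * N * R1.card +
        16 * (w + 1) * M * N * τ := by
      rw [← Nat.mul_add]
      exact Nat.mul_le_mul_left _ h1
    have h6 : (w + 1) * (2 * a * T.card) ≤ (w + 1) * (2 * a * N) :=
      Nat.mul_le_mul_left _ (Nat.mul_le_mul_left _ hTN)
    have h7 : 2 * (w + 1) * N * a ≤ 2 * (w + 1) * N * (8 * M * R1.card) := by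
      have e1 : 4 * (w + 1) * N * (4 * M * δ) = 16 * (w + 1) * M * N * δ := by ring
      have e2 : (w + 1) * (2 * a * N) = 2 * (w + 1) * N * a := by ring
      have e3 : 4 * (w + 1) * N * a = 2 * (w + 1) * N * a + 2 * (w + 1) * N * a := by ring
      have e4 : 2 * (w + 1) * N * (8 * M * R1.card) = 16 * (w + 1) * M * N * R1.card := by ring
      rw [e4]
      rw [e1] at h4
      rw [e2] at h6
      omega
    exact Nat.le_of_mul_le_mul_left h7 (by positivity)
  · calc a ^ 2 = a * a := sq a
      _ ≤ a * (4 * N * S.card) := Nat.mul_le_mul_left _ hSN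
      _ = 4 * N * (a * S.card) := by ring
      _ ≤ 4 * N * (16 * (w + 1) * M * N * (S.filter (fun x => f x ∈ P)).card) :=
        Nat.mul_le_mul_left _ hbig
      _ = 64 * (w + 1) * M * N ^ 2 * (S.filter (fun x => f x ∈ P)).card := by ring

open Classical in
/-- one vertex with many rows -/
theorem key_single (G : SimpleGraph V) (w : ℕ) (f : X → V) (g : Y → V) (F : X → Y → Prop)
    (hF : ∀ x y, F x y ↔ G.Adj (f x) (g y)) (a M N : ℕ) (ha : 0 < a)
    (S : Finset X) (T : Finset Y) (hS : S.Nonempty)
    (hd : ∀ x ∈ S, a ≤ 4 * M * (T.filter (fun y => F x y)).card)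
    (hSN : a ≤ 4 * N * S.card) (p : V)
    (hbig : a * S.card ≤ 16 * (w + 1) * M * N *
      (S.filter (fun x => f x ∈ ({p} : Finset V))).card) :
    ∃ (P : Finset X) (R : Finset Y), (∀ x ∈ P, ∀ y ∈ R, F x y) ∧
      a ≤ 8 * M * R.card ∧ a ^ 2 ≤ 64 * (w + 1) * M * N ^ 2 * P.card := by
  have hS0 := hS.card_pos
  have hPne : (S.filter (fun x => f x ∈ ({p} : Finset V))).Nonempty := by
    rw [← card_pos]
    by_contra h0
    have h1 : (S.filter (fun x => f x ∈ ({p} : Finset V))).card = 0 := by omega
    rw [h1, mul_zero] at hbig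
    have : 0 < a * S.card := Nat.mul_pos ha hS0
    omega
  obtain ⟨x, hx⟩ := hPne
  obtain ⟨hxS, hxP⟩ := mem_filter.1 hx
  have hxp := mem_singleton.1 hxP
  refine ⟨S.filter (fun x => f x ∈ ({p} : Finset V)), T.filter (fun y => F x y), ?_, ?_, ?_⟩
  · intro x' hx' y hy
    have h1 := mem_singleton.1 (mem_filter.1 hx').2
    rw [hF, h1, ← hxp, ← hF]
    exact (mem_filter.1 hy).2
  · have h1 := hd x hxS
    have e : 8 * M * (T.filter (fun y => F x y)).card = 4 * M * (T.filter (fun y => F x y)).card +
      4 * M * (T.filter (fun y => F x y)).card := by ring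
    omega
  · calc a ^ 2 = a * a := sq a
      _ ≤ a * (4 * N * S.card) := Nat.mul_le_mul_left _ hSN
      _ = 4 * N * (a * S.card) := by ring
      _ ≤ 4 * N * (16 * (w + 1) * M * N * (S.filter (fun x => f x ∈ ({p} : Finset V))).card) :=
        Nat.mul_le_mul_left _ hbig
      _ = 64 * (w + 1) * M * N ^ 2 * (S.filter (fun x => f x ∈ ({p} : Finset V))).card := by ring

theorem num_le [Fintype X] [Fintype Y] (F : X → Y → Prop) :
    num F ≤ Fintype.card X * Fintype.card Y := by
  classical
  unfold num
  calc ∑ x : X, (univ.filter (fun y : Y => F x y)).card ≤ ∑ _x : X, Fintype.card Y :=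
        Finset.sum_le_sum fun x _ => card_le_univ _
    _ = Fintype.card X * Fintype.card Y := by rw [sum_const, card_univ, smul_eq_mul]

/-- **Dense relations of small twin-width contain large product sets.** -/
theorem dense_rect [Fintype V] [Fintype X] [Fintype Y] (G : SimpleGraph V) (w : ℕ)
    (hw : TwinWidthLE G w) (f : X → V) (g : Y → V) (F : X → Y → Prop)
    (hF : ∀ x y, F x y ↔ G.Adj (f x) (g y)) (ha : 0 < num F) :
    ∃ (P : Finset X) (R : Finset Y), (∀ x ∈ P, ∀ y ∈ R, F x y) ∧
      ((num F ≤ 8 * Fintype.card X * R.card ∧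
        num F ^ 2 ≤ 64 * (w + 1) * Fintype.card X * Fintype.card Y ^ 2 * P.card) ∨
      (num F ≤ 8 * Fintype.card Y * P.card ∧
        num F ^ 2 ≤ 64 * (w + 1) * Fintype.card Y * Fintype.card X ^ 2 * R.card)) := by
  classical
  obtain ⟨S, T, hS, hT, hdS, hdT⟩ := clean F ha
  set a := num F with hadef
  set M := Fintype.card X with hM
  set N := Fintype.card Y with hN
  have hM0 : 0 < M := Fintype.card_pos_iff.2 ⟨hS.choose⟩
  have hN0 : 0 < N := Fintype.card_pos_iff.2 ⟨hT.choose⟩
  have hSM : S.card ≤ M := card_le_univ S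
  have hTN : T.card ≤ N := card_le_univ T
  have haMN : a ≤ M * N := num_le F
  have hSN : a ≤ 4 * N * S.card := by
    obtain ⟨y, hy⟩ := hT
    exact (hdT y hy).trans (Nat.mul_le_mul_left _ (card_filter_le _ _))
  have hTM : a ≤ 4 * M * T.card := by
    obtain ⟨x, hx⟩ := hS
    exact (hdS x hx).trans (Nat.mul_le_mul_left _ (card_filter_le _ _))
  have hF' : ∀ y x, (fun y x => F x y) y x ↔ G.Adj (g y) (f x) := by
    intro y x
    show F x y ↔ _
    rw [hF, G.adj_comm]
  by_contra hno
  have hno1 : ¬ ∃ (P : Finset X) (R : Finset Y), (∀ x ∈ P, ∀ y ∈ R, F x y) ∧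
      a ≤ 8 * M * R.card ∧ a ^ 2 ≤ 64 * (w + 1) * M * N ^ 2 * P.card := by
    rintro ⟨P, R, h1, h2, h3⟩
    exact hno ⟨P, R, h1, Or.inl ⟨h2, h3⟩⟩
  have hno2 : ¬ ∃ (P : Finset Y) (R : Finset X), (∀ y ∈ P, ∀ x ∈ R, (fun y x => F x y) y x) ∧
      a ≤ 8 * N * R.card ∧ a ^ 2 ≤ 64 * (w + 1) * N * M ^ 2 * P.card := by
    rintro ⟨P, R, h1, h2, h3⟩
    exact hno ⟨R, P, fun x hx y hy => h1 y hy x hx, Or.inr ⟨h2, h3⟩⟩
  have hK : ∀ n : ℕ, 16 * (w + 1) * N * M * n = 16 * (w + 1) * M * N * n := fun n => by ring
  have key : ∀ Q, Relation.ReflTransGen (Contract G w) (Finset.univ.image (fun v => {v})) Q →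
      (∀ v, ∃ A ∈ Q, v ∈ A) ∧
      (∀ A ∈ Q, 16 * (w + 1) * M * N * (S.filter (fun x => f x ∈ A)).card < a * S.card) ∧
      (∀ A ∈ Q, 16 * (w + 1) * M * N * (T.filter (fun y => g y ∈ A)).card < a * T.card) := by
    intro Q hQ
    induction hQ with
    | refl =>
      refine ⟨fun v => ⟨{v}, mem_image.2 ⟨v, mem_univ _, rfl⟩, mem_singleton_self v⟩, ?_, ?_⟩
      · intro A hA
        obtain ⟨p, -, rfl⟩ := mem_image.1 hA
        by_contra hcon
        exact hno1 (key_single G w f g F hF a M N ha S T hS hdS hSN p (by omega))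
      · intro A hA
        obtain ⟨p, -, rfl⟩ := mem_image.1 hA
        by_contra hcon
        refine hno2 (key_single G w g f _ hF' a N M ha T S hT hdT hTM p ?_)
        rw [hK]
        omega
    | @tail P' Q' _ hstep ih =>
      obtain ⟨ihc, ihs, iht⟩ := ih
      obtain ⟨⟨A, hA, B, hB, hAB, rfl⟩, hgood⟩ := hstep
      have hc : ∀ v : V, ∃ X ∈ insert (A ∪ B) ((P'.erase A).erase B), v ∈ X := by
        intro v
        obtain ⟨X, hX, hv⟩ := ihc v
        by_cases h1 : X = A
        · exact ⟨A ∪ B, mem_insert_self _ _, mem_union_left _ (h1 ▸ hv)⟩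
        · by_cases h2 : X = B
          · exact ⟨A ∪ B, mem_insert_self _ _, mem_union_right _ (h2 ▸ hv)⟩
          · exact ⟨X, mem_insert_of_mem (mem_erase.2 ⟨h2, mem_erase.2 ⟨h1, hX⟩⟩), hv⟩
      have hsm : ∀ Z ∈ insert (A ∪ B) ((P'.erase A).erase B),
          16 * (w + 1) * M * N * (S.filter (fun x => f x ∈ Z)).card ≤ 2 * a * S.card := by
        intro Z hZ
        have e : 2 * a * S.card = a * S.card + a * S.card := by ring
        rcases mem_insert.1 hZ with rfl | hZ
        · have h1 : (S.filter (fun x => f x ∈ A ∪ B)).card ≤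
              (S.filter (fun x => f x ∈ A)).card + (S.filter (fun x => f x ∈ B)).card := by
            refine (card_le_card ?_).trans (card_union_le _ _)
            intro x hx
            obtain ⟨h2, h3⟩ := mem_filter.1 hx
            rcases mem_union.1 h3 with h4 | h4
            · exact mem_union_left _ (mem_filter.2 ⟨h2, h4⟩)
            · exact mem_union_right _ (mem_filter.2 ⟨h2, h4⟩)
          have h2 := Nat.mul_le_mul_left (16 * (w + 1) * M * N) h1
          rw [Nat.mul_add (16 * (w + 1) * M * N)] at h2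
          have := ihs A hA
          have := ihs B hB
          omega
        · have := ihs Z (mem_of_mem_erase (mem_of_mem_erase hZ))
          omega
      have htm : ∀ Z ∈ insert (A ∪ B) ((P'.erase A).erase B),
          16 * (w + 1) * M * N * (T.filter (fun y => g y ∈ Z)).card ≤ 2 * a * T.card := by
        intro Z hZ
        have e : 2 * a * T.card = a * T.card + a * T.card := by ring
        rcases mem_insert.1 hZ with rfl | hZ
        · have h1 : (T.filter (fun x => g x ∈ A ∪ B)).card ≤
              (T.filter (fun x => g x ∈ A)).card + (T.filter (fun x => g x ∈ B)).card := by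
            refine (card_le_card ?_).trans (card_union_le _ _)
            intro x hx
            obtain ⟨h2, h3⟩ := mem_filter.1 hx
            rcases mem_union.1 h3 with h4 | h4
            · exact mem_union_left _ (mem_filter.2 ⟨h2, h4⟩)
            · exact mem_union_right _ (mem_filter.2 ⟨h2, h4⟩)
          have h2 := Nat.mul_le_mul_left (16 * (w + 1) * M * N) h1
          rw [Nat.mul_add (16 * (w + 1) * M * N)] at h2
          have := iht A hA
          have := iht B hB
          omega
        · have := iht Z (mem_of_mem_erase (mem_of_mem_erase hZ))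
          omega
      refine ⟨hc, ?_, ?_⟩
      · intro Z hZ
        by_contra hcon
        exact hno1 (key_part G w f g F hF a M N ha hM0 hN0 S T hS hTN hdS hSN _ hc hgood htm Z hZ
          (by omega))
      · intro Z hZ
        by_contra hcon
        refine hno2 (key_part G w g f _ hF' a N M ha hN0 hM0 T S hT hSM hdT hTM _ hc hgood ?_ Z hZ
          ?_)
        · intro Z' hZ'
          rw [hK]
          exact hsm Z' hZ'
        · rw [hK]
          omega
  have h1 := (key _ hw).2.1 Finset.univ (mem_singleton_self _)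
  have h2 : (S.filter (fun x => f x ∈ (univ : Finset V))) = S := by
    refine filter_true_of_mem ?_
    intro x _
    exact mem_univ _
  rw [h2] at h1
  have h3 : 16 * (w + 1) * M * N < a := Nat.lt_of_mul_lt_mul_right h1
  have h4 : 16 * (w + 1) * M * N = M * N + (16 * w + 15) * (M * N) := by ring
  omega

/-- the product of the two bounds -/
theorem dense_rect' [Fintype V] [Fintype X] [Fintype Y] (G : SimpleGraph V) (w : ℕ)
    (hw : TwinWidthLE G w) (f : X → V) (g : Y → V) (F : X → Y → Prop)
    (hF : ∀ x y, F x y ↔ G.Adj (f x) (g y)) :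
    ∃ (P : Finset X) (R : Finset Y), (∀ x ∈ P, ∀ y ∈ R, F x y) ∧
      num F ^ 3 ≤ 512 * (w + 1) * (Fintype.card X * Fintype.card Y) ^ 2 * (P.card * R.card) := by
  rcases Nat.eq_zero_or_pos (num F) with h0 | ha
  · refine ⟨∅, ∅, by simp, ?_⟩
    rw [h0]
    simp
  obtain ⟨P, R, h1, h2 | h2⟩ := dense_rect G w hw f g F hF ha
  · refine ⟨P, R, h1, ?_⟩
    calc num F ^ 3 = num F ^ 2 * num F := by ring
      _ ≤ (64 * (w + 1) * Fintype.card X * Fintype.card Y ^ 2 * P.card) *
          (8 * Fintype.card X * R.card) := Nat.mul_le_mul h2.2 h2.1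
      _ = _ := by ring
  · refine ⟨P, R, h1, ?_⟩
    calc num F ^ 3 = num F ^ 2 * num F := by ring
      _ ≤ (64 * (w + 1) * Fintype.card Y * Fintype.card X ^ 2 * R.card) *
          (8 * Fintype.card Y * P.card) := Nat.mul_le_mul h2.2 h2.1
      _ = _ := by ring

end Pool.Agent.Q274.TWD
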